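import Mathlib
import Pool.Agent.TH407.AR.Defs
import Pool.Agent.H789R2.FR.E4
set_option autoImplicit false

/-! Polar coordinates for the planar `L⁴` estimate. -/

namespace Pool.Agent.TH209.VR

open MeasureTheory Set Complex
open scoped ENNReal NNReal Real

/-- a periodic function has the same integral over all periods -/
theorem per_lint (Φ : ℝ → ℝ≥0∞) {T : ℝ} (hT : 0 < T) (hΦ : Function.Periodic Φ T) (a b : ℝ) :
    ∫⁻ x in Ioc a (a + T), Φ x = ∫⁻ x in Ioc b (b + T), Φ x := by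
  have ha := isAddFundamentalDomain_Ioc hT a
  have hb := isAddFundamentalDomain_Ioc hT b
  refine ha.setLIntegral_eq hb Φ ?_
  rintro ⟨g, hg⟩ x
  obtain ⟨n, rfl⟩ := AddSubgroup.mem_zmultiples_iff.1 hg
  change Φ (n • T + x) = Φ x
  rw [add_comm]
  exact hΦ.zsmul n x

theorem scale2 (f : ℝ → ℝ≥0∞) :
    ∫⁻ x, f (2 * x) = ENNReal.ofReal 2⁻¹ * ∫⁻ x, f x := by
  have hτ : (0 : ℝ) < 2 := by norm_num
  have h := lintegral_map_equiv (μ := (volume : Measure ℝ)) f
    (Homeomorph.mulLeft₀ (2 : ℝ) hτ.ne').toMeasurableEquiv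
  have e1 : ∀ x : ℝ, (Homeomorph.mulLeft₀ (2 : ℝ) hτ.ne').toMeasurableEquiv x = 2 * x :=
    fun x => rfl
  simp only [e1] at h
  rw [← h]
  have e2 : Measure.map ((Homeomorph.mulLeft₀ (2 : ℝ) hτ.ne').toMeasurableEquiv)
      (volume : Measure ℝ) = ENNReal.ofReal |(2 : ℝ)⁻¹| • (volume : Measure ℝ) := by
    rw [← Real.map_volume_mul_left hτ.ne']
    rfl
  rw [e2, lintegral_smul_measure, abs_of_pos (inv_pos.2 hτ), smul_eq_mul]

/-- angular integral -/
theorem ang_lint (Φ : ℝ → ℝ≥0∞) (hΦ : Function.Periodic Φ (2 * π)) (m : ℝ) :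
    ∫⁻ α in Ioo (-π) π, Φ (2 * α - 2 * m) = ∫⁻ β in Ioo (-π) π, Φ β := by
  set Ψ : ℝ → ℝ≥0∞ := fun α => Φ (2 * α - 2 * m) with hΨ
  have hper : Function.Periodic Ψ π := by
    intro x
    simp only [hΨ]
    rw [show 2 * (x + π) - 2 * m = 2 * x - 2 * m + 2 * π by ring, hΦ]
  have h1 : ∫⁻ α in Ioo (-π) π, Ψ α = ∫⁻ α in Ioc (-π) π, Ψ α :=
    setLIntegral_congr Ioo_ae_eq_Ioc
  have h2 : ∫⁻ α in Ioo (-π) π, Φ α = ∫⁻ α in Ioc (-π) π, Φ α :=
    setLIntegral_congr Ioo_ae_eq_Ioc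
  have hpi := Real.pi_pos
  have h3 : ∫⁻ α in Ioc (-π) π, Ψ α =
      (∫⁻ α in Ioc (-π) 0, Ψ α) + ∫⁻ α in Ioc 0 π, Ψ α := by
    rw [← Ioc_union_Ioc_eq_Ioc (by linarith : -π ≤ 0) hpi.le,
      lintegral_union measurableSet_Ioc (Set.Ioc_disjoint_Ioc_of_le le_rfl)]
  have h4 : ∫⁻ α in Ioc (-π) 0, Ψ α = ∫⁻ α in Ioc (m - π / 2) (m - π / 2 + π), Ψ α := by
    have := per_lint Ψ hpi hper (-π) (m - π / 2)
    rwa [neg_add_cancel] at this
  have h5 : ∫⁻ α in Ioc 0 π, Ψ α = ∫⁻ α in Ioc (m - π / 2) (m - π / 2 + π), Ψ α := by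
    have := per_lint Ψ hpi hper 0 (m - π / 2)
    rwa [zero_add] at this
  have h6 : ∫⁻ α in Ioc (m - π / 2) (m - π / 2 + π), Ψ α =
      ENNReal.ofReal 2⁻¹ * ∫⁻ β in Ioc (-π) π, Φ β := by
    rw [← lintegral_indicator measurableSet_Ioc, ← lintegral_indicator measurableSet_Ioc]
    have e1 : ∀ α, (Ioc (m - π / 2) (m - π / 2 + π)).indicator Ψ α =
        (fun y => (Ioc (-π) π).indicator Φ (y - 2 * m)) (2 * α) := by
      intro α
      by_cases h : α ∈ Ioc (m - π / 2) (m - π / 2 + π)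
      · have h' : 2 * α - 2 * m ∈ Ioc (-π) π := ⟨by linarith [h.1], by linarith [h.2]⟩
        simp only [indicator_of_mem h, indicator_of_mem h', hΨ]
      · have h' : 2 * α - 2 * m ∉ Ioc (-π) π := fun h2 =>
          h ⟨by linarith [h2.1], by linarith [h2.2]⟩
        simp only [indicator_of_notMem h, indicator_of_notMem h']
    rw [lintegral_congr e1, scale2 (fun y => (Ioc (-π) π).indicator Φ (y - 2 * m)),
      lintegral_sub_right_eq_self (fun y => (Ioc (-π) π).indicator Φ y) (2 * m)]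
  rw [h1, h2, h3, h4, h5, h6, ← add_mul, ← ENNReal.ofReal_add (by norm_num) (by norm_num)]
  norm_num

theorem polar_half (F : ℝ × ℝ → ℝ≥0∞) (hF : Measurable F) :
    ∫⁻ l in Ioi (0 : ℝ), ENNReal.ofReal l * ∫⁻ β in Ioo (-π) π,
      F (l * Real.cos β, l * Real.sin β) = ∫⁻ p, F p := by
  rw [← lintegral_comp_polarCoord_symm F]
  have e : (polarCoord.target : Set (ℝ × ℝ)) = Ioi (0 : ℝ) ×ˢ Ioo (-π) π := rfl
  rw [e, Measure.volume_eq_prod, ← Measure.prod_restrict, lintegral_prod]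
  · apply lintegral_congr
    intro l
    rw [← lintegral_const_mul' _ _ ENNReal.ofReal_ne_top]
    apply lintegral_congr
    intro β
    simp only [polarCoord_symm_apply, smul_eq_mul]
  · apply Measurable.aemeasurable
    simp only [polarCoord_symm_apply, smul_eq_mul]
    fun_prop

theorem polar_lint (F : ℝ × ℝ → ℝ≥0∞) (hF : Measurable F) (m : ℝ) :
    ∫⁻ p in (univ : Set ℝ) ×ˢ Ioo (-π) π, ENNReal.ofReal |p.1| *
      F (-(p.1 * Real.cos (2 * p.2 - 2 * m)), -(p.1 * Real.sin (2 * p.2 - 2 * m))) =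
      2 * ∫⁻ p, F p := by
  have hG : ∀ l : ℝ, ∫⁻ α in Ioo (-π) π, ENNReal.ofReal |l| *
      F (-(l * Real.cos (2 * α - 2 * m)), -(l * Real.sin (2 * α - 2 * m))) =
      ENNReal.ofReal |l| * ∫⁻ β in Ioo (-π) π, F (-(l * Real.cos β), -(l * Real.sin β)) := by
    intro l
    rw [lintegral_const_mul' _ _ ENNReal.ofReal_ne_top]
    congr 1
    refine ang_lint (fun β => F (-(l * Real.cos β), -(l * Real.sin β))) ?_ m
    intro x
    simp only [Real.cos_add_two_pi, Real.sin_add_two_pi]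
  set G : ℝ → ℝ≥0∞ := fun l =>
    ENNReal.ofReal |l| * ∫⁻ β in Ioo (-π) π, F (-(l * Real.cos β), -(l * Real.sin β)) with hGd
  rw [Measure.volume_eq_prod, ← Measure.prod_restrict, lintegral_prod, Measure.restrict_univ,
    lintegral_congr hG]
  · have h1 : ∫⁻ l, G l = (∫⁻ l in Ioi (0 : ℝ), G l) + ∫⁻ l in Iic (0 : ℝ), G l := by
      rw [← compl_Ioi]
      exact (lintegral_add_compl G measurableSet_Ioi).symm
    have h2 : ∫⁻ l in Iic (0 : ℝ), G l = ∫⁻ l in Ioi (0 : ℝ), G (-l) := by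
      rw [setLIntegral_congr (Iio_ae_eq_Iic (a := (0 : ℝ))).symm,
        ← lintegral_indicator measurableSet_Iio, ← lintegral_indicator measurableSet_Ioi]
      have := lintegral_sub_left_eq_self (μ := volume)
            ((Iio (0 : ℝ)).indicator G) 0
      rw [← this]
      apply lintegral_congr
      intro x
      rw [zero_sub]
      by_cases hx : 0 < x
      · rw [indicator_of_mem (show -x ∈ Iio (0 : ℝ) from neg_lt_zero.2 hx),
          indicator_of_mem (show x ∈ Ioi (0 : ℝ) from hx)]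
      · rw [indicator_of_notMem (show -x ∉ Iio (0 : ℝ) from fun h => hx (neg_lt_zero.1 h)),
          indicator_of_notMem (show x ∉ Ioi (0 : ℝ) from hx)]
    have h3 : ∫⁻ l in Ioi (0 : ℝ), G l = ∫⁻ p, F p := by
      have e := polar_half (fun p => F (-p)) (hF.comp measurable_neg)
      have e2 : ∫⁻ p, F (-p) = ∫⁻ p, F p := by
        have := lintegral_sub_left_eq_self (μ := (volume : Measure (ℝ × ℝ))) F 0
        simpa only [zero_sub] using this
      rw [← e2, ← e]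
      apply setLIntegral_congr_fun measurableSet_Ioi
      intro l hl
      simp only [hGd, abs_of_pos (mem_Ioi.1 hl), Prod.neg_mk]
    have h4 : ∫⁻ l in Ioi (0 : ℝ), G (-l) = ∫⁻ p, F p := by
      rw [← polar_half F hF]
      apply setLIntegral_congr_fun measurableSet_Ioi
      intro l hl
      simp only [hGd, abs_neg, abs_of_pos (mem_Ioi.1 hl), neg_mul, neg_neg]
    have h5 : ∫⁻ l : ℝ, ENNReal.ofReal |l| *
        ∫⁻ β in Ioo (-π) π, F (-(l * Real.cos β), -(l * Real.sin β)) = ∫⁻ l, G l := rfl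
    rw [h5, h1, h2, h3, h4, two_mul]
    rfl
  · apply Measurable.aemeasurable
    fun_prop

end Pool.Agent.TH209.VR
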