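import Mathlib
import Pool.Agent.TH209.VR.P1
set_option autoImplicit false

/-! The arcs of the circle and the planar `L⁴` estimate on each arc. -/

namespace Pool.Agent.TH209.VR

open MeasureTheory Set Complex
open scoped ENNReal NNReal Real
open Pool.Agent.TH407.AR
open Pool.Agent.H789R2.FR (Ex sc band E4r)
open Pool.Agent.H789R2.FR.E4w (Ex_meas sc_meas norm_phase)

/-- the piece of `H` on the arc centred at `m` -/
noncomputable def Pc (g : ℝ → ℂ) (m l α : ℝ) : ℂ :=
  ∫ θ in Ioo (m - π / 8) (m + π / 8),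
    cexp (I * ((l * (1 + Real.cos (2 * (θ - α))) : ℝ) : ℂ)) * g θ

/-- `sin (π/4)` -/
noncomputable def kp : ℝ := Real.sin (π / 4)

theorem kp_pos : 0 < kp := by
  unfold kp
  apply Real.sin_pos_of_pos_of_lt_pi <;> linarith [Real.pi_pos]

theorem kp_sq : kp ^ 2 = 1 / 2 := by
  unfold kp
  rw [Real.sin_pi_div_four, div_pow, Real.sq_sqrt (by norm_num)]
  norm_num

theorem kp_lt : kp < 1 := by
  have := kp_sq
  have := kp_pos
  nlinarith

theorem sc_low {c : ℝ} (hc : c ∈ Ioo (-kp) kp) : 1 / 2 < sc c := by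
  unfold sc
  apply Real.lt_sqrt_of_sq_lt
  have h := kp_sq
  have h2 : c ^ 2 < kp ^ 2 := by
    rw [sq_lt_sq, abs_of_pos kp_pos]
    exact abs_lt.2 hc
  linarith

theorem sc_up (c : ℝ) : sc c ≤ 1 := by
  unfold sc
  exact Real.sqrt_le_iff.2 ⟨zero_le_one, by nlinarith [sq_nonneg c]⟩

/-- the substitution -/
noncomputable def sub (m c : ℝ) : ℝ := m + Real.arcsin c / 2

theorem sub_meas (m : ℝ) : Measurable (sub m) := by
  unfold sub
  fun_prop

theorem sub_img (m : ℝ) : sub m '' Ioo (-kp) kp = Ioo (m - π / 8) (m + π / 8) := by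
  have hpi := Real.pi_pos
  ext x
  constructor
  · rintro ⟨c, hc, rfl⟩
    have h1 : Real.arcsin c < π / 4 := by
      rw [Real.arcsin_lt_iff_lt_sin' ⟨by linarith, by linarith⟩]
      exact hc.2
    have h2 : -(π / 4) < Real.arcsin c := by
      rw [Real.lt_arcsin_iff_sin_lt' ⟨by linarith, by linarith⟩, Real.sin_neg]
      exact hc.1
    unfold sub
    exact ⟨by linarith, by linarith⟩
  · intro hx
    refine ⟨Real.sin (2 * (x - m)), ⟨?_, ?_⟩, ?_⟩
    · have : Real.sin (-(π / 4)) < Real.sin (2 * (x - m)) :=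
        Real.sin_lt_sin_of_lt_of_le_pi_div_two (by linarith) (by linarith [hx.2])
          (by linarith [hx.1])
      rwa [Real.sin_neg] at this
    · exact Real.sin_lt_sin_of_lt_of_le_pi_div_two (by linarith [hx.1]) (by linarith)
        (by linarith [hx.2])
    · unfold sub
      rw [Real.arcsin_sin (by linarith [hx.1]) (by linarith [hx.2])]
      ring

theorem sub_inj (m : ℝ) : InjOn (sub m) (Ioo (-kp) kp) := by
  intro c hc d hd h
  have h1 : Real.arcsin c = Real.arcsin d := by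
    unfold sub at h
    linarith
  have hk := kp_lt
  exact Real.injOn_arcsin ⟨by linarith [hc.1], by linarith [hc.2]⟩
    ⟨by linarith [hd.1], by linarith [hd.2]⟩ h1

theorem sub_deriv (m : ℝ) {c : ℝ} (hc : c ∈ Ioo (-kp) kp) :
    HasDerivWithinAt (sub m) ((2 * sc c)⁻¹) (Ioo (-kp) kp) c := by
  have hk := kp_lt
  have h := Real.hasDerivAt_arcsin (x := c) (by intro h; linarith [hc.1])
    (by intro h; linarith [hc.2])
  have h2 := (h.div_const 2).const_add m
  have e : (2 * sc c)⁻¹ = 1 / √(1 - c ^ 2) / 2 := by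
    unfold sc
    field_simp
  rw [e]
  exact h2.hasDerivWithinAt

/-- the density in the variable `c` -/
noncomputable def bb (g : ℝ → ℂ) (m : ℝ) : ℝ → ℂ :=
  (Ioo (-kp) kp).indicator (fun c => (((2 * sc c)⁻¹ : ℝ) : ℂ) * g (sub m c))

theorem bb_meas (g : ℝ → ℂ) (hg : Measurable g) (m : ℝ) : Measurable (bb g m) := by
  unfold bb
  have h1 := sc_meas
  have h2 := hg.comp (sub_meas m)
  refine Measurable.indicator ?_ measurableSet_Ioo
  exact (Complex.measurable_ofReal.comp ((h1.const_mul 2).inv)).mul h2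

theorem bb_band (g : ℝ → ℂ) (m : ℝ) (c : ℝ) (hc : c ∉ band 1) : bb g m c = 0 := by
  unfold bb
  apply indicator_of_notMem
  intro h
  apply hc
  have hk := kp_lt
  refine ⟨?_, ?_, sc_up c⟩
  · rw [abs_lt]
    exact ⟨by linarith [h.1], by linarith [h.2]⟩
  · exact sc_low h

theorem inv_le {c : ℝ} (hc : c ∈ Ioo (-kp) kp) : (2 * sc c)⁻¹ ≤ 1 := by
  have := sc_low hc
  exact inv_le_one_of_one_le₀ (by linarith)

theorem inv_pos' {c : ℝ} (hc : c ∈ Ioo (-kp) kp) : 0 < (2 * sc c)⁻¹ := by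
  have := sc_low hc
  have : 0 < 2 * sc c := by linarith
  positivity

theorem bb_le (g : ℝ → ℂ) (B : ℝ) (hB0 : 0 ≤ B) (hB : ∀ θ, ‖g θ‖ ≤ B) (m c : ℝ) :
    ‖bb g m c‖ ≤ B := by
  unfold bb
  by_cases hc : c ∈ Ioo (-kp) kp
  · rw [indicator_of_mem hc, norm_mul, Complex.norm_real, Real.norm_eq_abs,
      abs_of_pos (inv_pos' hc)]
    calc (2 * sc c)⁻¹ * ‖g (sub m c)‖ ≤ 1 * B :=
          mul_le_mul (inv_le hc) (hB _) (norm_nonneg _) zero_le_one
      _ = B := one_mul B
  · rw [indicator_of_notMem hc, norm_zero]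
    exact hB0

theorem bb_lint (g : ℝ → ℂ) (m : ℝ) :
    ∫⁻ c, ‖bb g m c‖ₑ ^ 2 ≤ ∫⁻ θ in Ioo (m - π / 8) (m + π / 8), ‖g θ‖ₑ ^ 2 := by
  rw [← sub_img m, lintegral_image_eq_lintegral_abs_deriv_mul measurableSet_Ioo
    (fun c hc => sub_deriv m hc) (sub_inj m), ← lintegral_indicator measurableSet_Ioo]
  apply lintegral_mono
  intro c
  simp only
  unfold bb
  by_cases hc : c ∈ Ioo (-kp) kp
  · rw [indicator_of_mem hc, indicator_of_mem hc, enorm_mul, mul_pow, abs_of_pos (inv_pos' hc)]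
    gcongr
    rw [← ofReal_norm, Complex.norm_real, Real.norm_eq_abs, abs_of_pos (inv_pos' hc),
      ← ENNReal.ofReal_pow (inv_pos' hc).le]
    apply ENNReal.ofReal_le_ofReal
    have h1 := inv_pos' hc
    have h2 := inv_le hc
    nlinarith
  · rw [indicator_of_notMem hc, indicator_of_notMem hc]
    simp

theorem Pc_eq (g : ℝ → ℂ) (m l α : ℝ) :
    Pc g m l α = cexp (I * (l : ℂ)) *
      Ex (bb g m) (-(l * Real.cos (2 * α - 2 * m))) (-(l * Real.sin (2 * α - 2 * m))) := by
  unfold Pc Ex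
  rw [← sub_img m, integral_image_eq_integral_abs_deriv_smul measurableSet_Ioo
    (fun c hc => sub_deriv m hc) (sub_inj m), ← integral_const_mul]
  have hk := kp_lt
  have hsub : Ioo (-kp) kp ⊆ Ioo (-1 : ℝ) 1 := Ioo_subset_Ioo (by linarith) hk.le
  symm
  rw [← integral_indicator measurableSet_Ioo, ← integral_indicator measurableSet_Ioo]
  apply integral_congr_ae
  refine Filter.Eventually.of_forall (fun c => ?_)
  by_cases hc : c ∈ Ioo (-kp) kp
  · rw [indicator_of_mem (hsub hc), indicator_of_mem hc]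
    unfold bb
    rw [indicator_of_mem hc, abs_of_pos (inv_pos' hc), Complex.real_smul]
    have e : Real.cos (2 * (sub m c - α)) =
        sc c * Real.cos (2 * α - 2 * m) + c * Real.sin (2 * α - 2 * m) := by
      rw [show 2 * (sub m c - α) = Real.arcsin c - (2 * α - 2 * m) by unfold sub; ring,
        Real.cos_sub, Real.cos_arcsin, Real.sin_arcsin (by linarith [hc.1]) (by linarith [hc.2])]
      rfl
    rw [e]
    have e2 : cexp (I * (l : ℂ)) * cexp (-((-(l * Real.cos (2 * α - 2 * m)) * sc c +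
        -(l * Real.sin (2 * α - 2 * m)) * c : ℝ) : ℂ) * I) =
        cexp (I * ((l * (1 + (sc c * Real.cos (2 * α - 2 * m) + c * Real.sin (2 * α - 2 * m))) :
          ℝ) : ℂ)) := by
      rw [← Complex.exp_add]
      congr 1
      push_cast
      ring
    rw [← e2]
    ring
  · rw [indicator_of_notMem hc]
    by_cases hc' : c ∈ Ioo (-1 : ℝ) 1
    · rw [indicator_of_mem hc']
      unfold bb
      rw [indicator_of_notMem hc]
      simp
    · rw [indicator_of_notMem hc']

theorem Pc_enorm (g : ℝ → ℂ) (m l α : ℝ) :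
    ‖Pc g m l α‖ₑ =
      ‖Ex (bb g m) (-(l * Real.cos (2 * α - 2 * m))) (-(l * Real.sin (2 * α - 2 * m)))‖ₑ := by
  rw [Pc_eq, enorm_mul]
  have : ‖cexp (I * (l : ℂ))‖ₑ = 1 := by
    rw [← ofReal_norm, mul_comm, Complex.norm_exp_ofReal_mul_I, ENNReal.ofReal_one]
  rw [this, one_mul]

end Pool.Agent.TH209.VR
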