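import Mathlib
import Pool.Agent.TH209.VR.P2
set_option autoImplicit false

/-! Job 926 (VR-A): the planar `L⁴` estimate for the circle, weighted form. -/

namespace Pool.Agent.TH209.VR

open MeasureTheory Set Complex
open scoped ENNReal NNReal Real
open Pool.Agent.TH407.AR
open Pool.Agent.H789R2.FR (Ex sc band E4r)
open Pool.Agent.H789R2.FR.E4w (Ex_meas sc_meas norm_phase)

theorem norm_le_of {g : ℝ → ℂ} {B : ℝ≥0} (hB : ∀ θ, ‖g θ‖ₑ ≤ B) (θ : ℝ) : ‖g θ‖ ≤ B := by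
  have := hB θ
  rw [enorm_le_coe] at this
  exact_mod_cast this

theorem Pc_meas0 (g : ℝ → ℂ) (hg : Measurable g) (m : ℝ) :
    Measurable (fun p : ℝ × ℝ => Pc g m p.1 p.2) := by
  have h := Ex_meas (bb g m) (bb_meas g hg m)
  have h2 : Measurable (fun p : ℝ × ℝ => (-(p.1 * Real.cos (2 * p.2 - 2 * m)),
    -(p.1 * Real.sin (2 * p.2 - 2 * m)))) := by fun_prop
  have h3 : Measurable (fun p : ℝ × ℝ => cexp (I * (p.1 : ℂ))) := by fun_prop
  have h4 := h3.mul (h.comp h2)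
  have e : (fun p : ℝ × ℝ => Pc g m p.1 p.2) = (fun p : ℝ × ℝ => cexp (I * (p.1 : ℂ))) *
      (Function.uncurry (Ex (bb g m)) ∘ fun p : ℝ × ℝ => (-(p.1 * Real.cos (2 * p.2 - 2 * m)),
    -(p.1 * Real.sin (2 * p.2 - 2 * m)))) := by
    funext p
    exact Pc_eq g m p.1 p.2
  rw [e]
  exact h4

theorem Pc_meas (g : ℝ → ℂ) (hg : Measurable g) (m : ℝ) :
    Measurable (fun p : ℝ × ℝ => ‖Pc g m p.1 p.2‖ₑ ^ 4) :=
  (Pc_meas0 g hg m).enorm.pow_const 4

theorem bb_main : ∃ C : ℝ, 0 < C ∧ ∀ (g : ℝ → ℂ) (B : ℝ≥0), Measurable g →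
    (∀ θ, ‖g θ‖ₑ ≤ B) → ∀ (m Y : ℝ), 1 ≤ Y →
    ∫⁻ y in Icc (-Y) Y, ∫⁻ z : ℝ, ‖Ex (bb g m) y z‖ₑ ^ 4 ≤
      ENNReal.ofReal (C * (1 + Real.log Y)) * B ^ 2 *
        ∫⁻ θ in Ioo (m - π / 8) (m + π / 8), ‖g θ‖ₑ ^ 2 := by
  obtain ⟨C, hC, h⟩ := E4r
  refine ⟨C, hC, ?_⟩
  intro g B hg hB m Y hY
  have hb := bb_meas g hg m
  have hB' := bb_le g B B.2 (norm_le_of hB) m
  have h1 := h 1 one_pos le_rfl Y (by linarith) (bb g m) hb B hB' (bb_band g m)
  have hlog : 0 ≤ Real.log Y := Real.log_nonneg hY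
  have e1 : ∀ x : ℂ, ENNReal.ofReal (‖x‖ ^ 4) = ‖x‖ₑ ^ 4 := by
    intro x
    rw [ENNReal.ofReal_pow (norm_nonneg _), ofReal_norm]
  simp only [e1] at h1
  refine h1.trans ?_
  have hsupp : ∀ c, c ∉ Icc (-1 : ℝ) 1 → bb g m c = 0 := by
    intro c hc
    apply bb_band
    intro h
    have := abs_lt.1 h.1
    exact hc ⟨this.1.le, this.2.le⟩
  have hbI := Pool.Agent.H789R2.FR.E4w.int_of_bdd (bb g m) hb B hB' hsupp
  have hb2 : Integrable (fun c => ‖bb g m c‖ ^ 2) := by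
    apply Integrable.mono' (hbI.norm.const_mul (B : ℝ)) (hb.norm.pow_const 2).aestronglyMeasurable
    refine Filter.Eventually.of_forall (fun c => ?_)
    rw [Real.norm_eq_abs, abs_pow, abs_norm, pow_two]
    exact mul_le_mul_of_nonneg_right (hB' c) (norm_nonneg _)
  have e2 : ENNReal.ofReal (∫ c, ‖bb g m c‖ ^ 2) = ∫⁻ c, ‖bb g m c‖ₑ ^ 2 := by
    rw [ofReal_integral_eq_lintegral_ofReal hb2 (Filter.Eventually.of_forall
      (fun c => sq_nonneg _))]
    apply lintegral_congr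
    intro c
    rw [ENNReal.ofReal_pow (norm_nonneg _), ofReal_norm]
  have e3 : C * (B : ℝ) ^ 2 * 1 ^ 3 * (1 + Real.log (Y * 1)) * ∫ c, ‖bb g m c‖ ^ 2 =
      C * (1 + Real.log Y) * (B : ℝ) ^ 2 * ∫ c, ‖bb g m c‖ ^ 2 := by
    rw [mul_one]
    ring
  rw [e3, ENNReal.ofReal_mul (by positivity), ENNReal.ofReal_mul (by positivity), e2,
    ENNReal.ofReal_pow (NNReal.coe_nonneg B), ENNReal.ofReal_coe_nnreal]
  exact mul_le_mul' le_rfl (bb_lint g m)

theorem arc_Y : ∃ C : ℝ, 0 < C ∧ ∀ (g : ℝ → ℂ) (B : ℝ≥0), Measurable g →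
    (∀ θ, ‖g θ‖ₑ ≤ B) → ∀ (m Y : ℝ), 1 ≤ Y →
    ∫⁻ p in (univ : Set ℝ) ×ˢ Ioo (-π) π, ENNReal.ofReal |p.1| *
      ({p : ℝ × ℝ | |p.1| ≤ Y}.indicator (fun p => ‖Pc g m p.1 p.2‖ₑ ^ 4) p) ≤
      ENNReal.ofReal (C * (1 + Real.log Y)) * B ^ 2 *
        ∫⁻ θ in Ioo (m - π / 8) (m + π / 8), ‖g θ‖ₑ ^ 2 := by
  obtain ⟨C, hC, h⟩ := bb_main
  refine ⟨2 * C, by positivity, ?_⟩
  intro g B hg hB m Y hY
  have h1 := h g B hg hB m Y hY
  have hm : MeasurableSet {p : ℝ × ℝ | |p.1| ≤ Y} :=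
    measurableSet_le (f := fun p : ℝ × ℝ => |p.1|) (by fun_prop) measurable_const
  have hE : Measurable (fun p : ℝ × ℝ => ‖Ex (bb g m) p.1 p.2‖ₑ ^ 4) :=
    (Ex_meas (bb g m) (bb_meas g hg m)).enorm.pow_const 4
  set F : ℝ × ℝ → ℝ≥0∞ := {p : ℝ × ℝ | |p.1| ≤ Y}.indicator
    (fun p => ‖Ex (bb g m) p.1 p.2‖ₑ ^ 4) with hF
  have hFm : Measurable F := hE.indicator hm
  have h2 : ∫⁻ p, F p = ∫⁻ y in Icc (-Y) Y, ∫⁻ z : ℝ, ‖Ex (bb g m) y z‖ₑ ^ 4 := by
    rw [Measure.volume_eq_prod, lintegral_prod _ hFm.aemeasurable,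
      ← lintegral_indicator measurableSet_Icc]
    apply lintegral_congr
    intro y
    by_cases hy : y ∈ Icc (-Y) Y
    · rw [indicator_of_mem hy]
      apply lintegral_congr
      intro z
      rw [hF, indicator_of_mem]
      exact abs_le.2 hy
    · rw [indicator_of_notMem hy]
      have : ∀ z, F (y, z) = 0 := by
        intro z
        rw [hF, indicator_of_notMem]
        intro h
        exact hy (abs_le.1 h)
      simp [this]
  have h3 := polar_lint F hFm m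
  calc _ ≤ ∫⁻ p in (univ : Set ℝ) ×ˢ Ioo (-π) π, ENNReal.ofReal |p.1| *
      F (-(p.1 * Real.cos (2 * p.2 - 2 * m)), -(p.1 * Real.sin (2 * p.2 - 2 * m))) := by
        apply lintegral_mono
        intro p
        simp only
        gcongr
        by_cases hp : |p.1| ≤ Y
        · rw [indicator_of_mem (show p ∈ {p : ℝ × ℝ | |p.1| ≤ Y} from hp), hF,
            indicator_of_mem, Pc_enorm]
          change |-(p.1 * Real.cos (2 * p.2 - 2 * m))| ≤ Y
          rw [abs_neg, abs_mul]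
          calc |p.1| * |Real.cos (2 * p.2 - 2 * m)| ≤ |p.1| * 1 :=
                mul_le_mul_of_nonneg_left (Real.abs_cos_le_one _) (abs_nonneg _)
            _ ≤ Y := by rwa [mul_one]
        · rw [indicator_of_notMem (show p ∉ {p : ℝ × ℝ | |p.1| ≤ Y} from hp)]
          exact zero_le
    _ = 2 * ∫⁻ p, F p := h3
    _ ≤ 2 * (ENNReal.ofReal (C * (1 + Real.log Y)) * B ^ 2 *
        ∫⁻ θ in Ioo (m - π / 8) (m + π / 8), ‖g θ‖ₑ ^ 2) := by
        rw [h2]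
        gcongr
    _ = _ := by
        have : ENNReal.ofReal (2 * C * (1 + Real.log Y)) =
            2 * ENNReal.ofReal (C * (1 + Real.log Y)) := by
          rw [mul_assoc, ENNReal.ofReal_mul (by norm_num)]
          norm_num
        rw [this]
        ring

/-- the weight is bounded by a dyadic sum -/
theorem weight_le (δ : ℝ) (hδ : 0 < δ) (l : ℝ) (hl : 1 ≤ |l|) (x : ℝ≥0∞) :
    ENNReal.ofReal (|l| ^ (1 - δ)) * x ≤ ∑' k : ℕ, ENNReal.ofReal (((2 : ℝ) ^ (-δ)) ^ k) *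
      (ENNReal.ofReal |l| * (if |l| ≤ 2 ^ (k + 1) then x else 0)) := by
  obtain ⟨k, hk1, hk2⟩ := exists_nat_pow_near hl (one_lt_two : (1 : ℝ) < 2)
  refine le_trans ?_ (ENNReal.le_tsum k)
  rw [if_pos hk2.le, ← mul_assoc, ← ENNReal.ofReal_mul (by positivity)]
  gcongr
  have hl0 : 0 < |l| := by linarith
  rw [sub_eq_add_neg, Real.rpow_add hl0, Real.rpow_one, mul_comm]
  apply mul_le_mul_of_nonneg_right _ hl0.le
  rw [← Real.rpow_natCast, ← Real.rpow_mul (by norm_num), mul_comm (-δ), Real.rpow_mul (by norm_num),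
    Real.rpow_natCast]
  exact Real.rpow_le_rpow_of_nonpos (by positivity) hk1 (by linarith)

theorem sum_fin (δ C : ℝ) (hδ : 0 < δ) (hC : 0 < C) :
    ∑' k : ℕ, ENNReal.ofReal (((2 : ℝ) ^ (-δ)) ^ k) *
      ENNReal.ofReal (C * (1 + Real.log (2 ^ (k + 1)))) ≠ ∞ := by
  have hr0 : (0 : ℝ) < 2 ^ (-δ) := by positivity
  have hr1 : (2 : ℝ) ^ (-δ) < 1 := Real.rpow_lt_one_of_one_lt_of_neg (by norm_num) (by linarith)
  set r : ℝ := (2 : ℝ) ^ (-δ) with hr
  have hlog : ∀ k : ℕ, Real.log (2 ^ (k + 1)) ≤ (k : ℝ) + 1 := by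
    intro k
    rw [Real.log_pow]
    push_cast
    have := Real.log_two_lt_d9
    have h0 : (0 : ℝ) ≤ (k : ℝ) + 1 := by positivity
    nlinarith
  have hs : Summable (fun k : ℕ => C * ((k : ℝ) * r ^ k) + C * 2 * r ^ k) := by
    have h1 := summable_pow_mul_geometric_of_norm_lt_one 1 (r := r)
      (by rw [Real.norm_eq_abs, abs_of_pos hr0]; exact hr1)
    simp only [pow_one] at h1
    have h2 := summable_geometric_of_lt_one hr0.le hr1
    exact (h1.mul_left C).add (h2.mul_left (C * 2))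
  have hle : ∀ k : ℕ, ENNReal.ofReal (r ^ k) *
      ENNReal.ofReal (C * (1 + Real.log (2 ^ (k + 1)))) ≤
      ENNReal.ofReal (C * ((k : ℝ) * r ^ k) + C * 2 * r ^ k) := by
    intro k
    rw [← ENNReal.ofReal_mul (by positivity)]
    apply ENNReal.ofReal_le_ofReal
    have h1 := hlog k
    have h2 : 0 < r ^ k := by positivity
    have h3 : C * (1 + Real.log (2 ^ (k + 1))) ≤ C * ((k : ℝ) + 2) :=
      mul_le_mul_of_nonneg_left (by linarith) hC.le
    calc r ^ k * (C * (1 + Real.log (2 ^ (k + 1)))) ≤ r ^ k * (C * ((k : ℝ) + 2)) :=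
          mul_le_mul_of_nonneg_left h3 h2.le
      _ = _ := by ring
  refine ne_top_of_le_ne_top ?_ (ENNReal.tsum_le_tsum hle)
  rw [← ENNReal.ofReal_tsum_of_nonneg (fun k => by positivity) hs]
  exact ENNReal.ofReal_ne_top

theorem arc_far (δ : ℝ) (hδ : 0 < δ) : ∃ C : ℝ≥0, ∀ (g : ℝ → ℂ) (B : ℝ≥0), Measurable g →
    (∀ θ, ‖g θ‖ₑ ≤ B) → ∀ m : ℝ,
    ∫⁻ p in (univ : Set ℝ) ×ˢ Ioo (-π) π, ENNReal.ofReal (|p.1| ^ (1 - δ)) *
      ({p : ℝ × ℝ | 1 ≤ |p.1|}.indicator (fun p => ‖Pc g m p.1 p.2‖ₑ ^ 4) p) ≤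
      C * B ^ 2 * ∫⁻ θ in Ioo (m - π / 8) (m + π / 8), ‖g θ‖ₑ ^ 2 := by
  obtain ⟨C, hC, h⟩ := arc_Y
  have hfin := sum_fin δ C hδ hC
  refine ⟨(∑' k : ℕ, ENNReal.ofReal (((2 : ℝ) ^ (-δ)) ^ k) *
      ENNReal.ofReal (C * (1 + Real.log (2 ^ (k + 1))))).toNNReal, ?_⟩
  intro g B hg hB m
  rw [ENNReal.coe_toNNReal hfin]
  have hPm := Pc_meas g hg m
  have hmeas : ∀ k : ℕ, Measurable (fun p : ℝ × ℝ => ENNReal.ofReal |p.1| *
      ({p : ℝ × ℝ | |p.1| ≤ 2 ^ (k + 1)}.indicator (fun p => ‖Pc g m p.1 p.2‖ₑ ^ 4) p)) := by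
    intro k
    have hm : MeasurableSet {p : ℝ × ℝ | |p.1| ≤ 2 ^ (k + 1)} :=
      measurableSet_le (f := fun p : ℝ × ℝ => |p.1|) (by fun_prop) measurable_const
    refine Measurable.mul (by fun_prop) (hPm.indicator hm)
  calc _ ≤ ∫⁻ p in (univ : Set ℝ) ×ˢ Ioo (-π) π,
        ∑' k : ℕ, ENNReal.ofReal (((2 : ℝ) ^ (-δ)) ^ k) * (ENNReal.ofReal |p.1| *
          ({p : ℝ × ℝ | |p.1| ≤ 2 ^ (k + 1)}.indicator (fun p => ‖Pc g m p.1 p.2‖ₑ ^ 4) p)) := by
        apply lintegral_mono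
        intro p
        simp only
        by_cases hp : 1 ≤ |p.1|
        · rw [indicator_of_mem (show p ∈ {p : ℝ × ℝ | 1 ≤ |p.1|} from hp)]
          refine (weight_le δ hδ p.1 hp _).trans (le_of_eq ?_)
          congr 1
        · rw [indicator_of_notMem (show p ∉ {p : ℝ × ℝ | 1 ≤ |p.1|} from hp), mul_zero]
          exact zero_le
    _ = ∑' k : ℕ, ENNReal.ofReal (((2 : ℝ) ^ (-δ)) ^ k) *
        ∫⁻ p in (univ : Set ℝ) ×ˢ Ioo (-π) π, (ENNReal.ofReal |p.1| *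
          ({p : ℝ × ℝ | |p.1| ≤ 2 ^ (k + 1)}.indicator (fun p => ‖Pc g m p.1 p.2‖ₑ ^ 4) p)) := by
        rw [lintegral_tsum (fun k => ((hmeas k).const_mul _).aemeasurable)]
        congr 1
        ext k
        rw [lintegral_const_mul' _ _ ENNReal.ofReal_ne_top]
    _ ≤ ∑' k : ℕ, ENNReal.ofReal (((2 : ℝ) ^ (-δ)) ^ k) *
        (ENNReal.ofReal (C * (1 + Real.log (2 ^ (k + 1)))) * B ^ 2 *
        ∫⁻ θ in Ioo (m - π / 8) (m + π / 8), ‖g θ‖ₑ ^ 2) := by
        apply ENNReal.tsum_le_tsum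
        intro k
        gcongr
        refine h g B hg hB m (2 ^ (k + 1)) ?_
        exact one_le_pow₀ (by norm_num)
    _ = _ := by
        rw [← ENNReal.tsum_mul_right, ← ENNReal.tsum_mul_right]
        congr 1
        ext k
        ring

/-- endpoints of the arcs -/
noncomputable def aj (j : ℕ) : ℝ := -π + j * (π / 4)

/-- centres of the arcs -/
noncomputable def mj (j : ℕ) : ℝ := -π + π / 8 + j * (π / 4)

theorem H_sum (g : ℝ → ℂ) (hg : Measurable g) (B : ℝ≥0) (hB : ∀ θ, ‖g θ‖ₑ ≤ B) (l α : ℝ) :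
    H g l α = ∑ j ∈ Finset.range 8, Pc g (mj j) l α := by
  have hpi := Real.pi_pos
  set f : ℝ → ℂ := fun θ => cexp (I * ((l * (1 + Real.cos (2 * (θ - α))) : ℝ) : ℂ)) * g θ with hf
  have hfm : Measurable f := by
    simp only [hf]
    fun_prop
  have hfb : ∀ θ, ‖f θ‖ ≤ B := by
    intro θ
    simp only [hf]
    rw [norm_mul, mul_comm I, Complex.norm_exp_ofReal_mul_I, one_mul]
    exact norm_le_of hB θ
  have hint : ∀ a b : ℝ, IntervalIntegrable f volume a b := by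
    intro a b
    rw [intervalIntegrable_iff]
    apply Measure.integrableOn_of_bounded (M := B)
    · simp
    · exact hfm.aestronglyMeasurable
    · exact Filter.Eventually.of_forall hfb
  have h1 := intervalIntegral.sum_integral_adjacent_intervals (a := aj) (n := 8) (μ := volume)
    (f := f) (fun k _ => hint _ _)
  have e0 : aj 0 = -π := by unfold aj; push_cast; ring
  have e8 : aj 8 = π := by unfold aj; push_cast; ring
  rw [e0, e8] at h1
  have h2 : H g l α = ∫ x in (-π)..π, f x := by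
    rw [intervalIntegral.integral_of_le (by linarith), integral_Ioc_eq_integral_Ioo]
    rfl
  rw [h2, ← h1]
  apply Finset.sum_congr rfl
  intro j _
  have hle : aj j ≤ aj (j + 1) := by unfold aj; push_cast; linarith
  rw [intervalIntegral.integral_of_le hle, integral_Ioc_eq_integral_Ioo]
  have e1 : aj j = mj j - π / 8 := by unfold aj mj; ring
  have e2 : aj (j + 1) = mj j + π / 8 := by unfold aj mj; push_cast; ring
  rw [e1, e2]
  rfl

theorem H_four (g : ℝ → ℂ) (hg : Measurable g) (B : ℝ≥0) (hB : ∀ θ, ‖g θ‖ₑ ≤ B) (l α : ℝ) :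
    ‖H g l α‖ₑ ^ 4 ≤ 512 * ∑ j ∈ Finset.range 8, ‖Pc g (mj j) l α‖ₑ ^ 4 := by
  rw [H_sum g hg B hB]
  have h1 : ‖∑ j ∈ Finset.range 8, Pc g (mj j) l α‖ₑ ≤
      ∑ j ∈ Finset.range 8, ‖Pc g (mj j) l α‖ₑ := enorm_sum_le _ _
  refine (pow_le_pow_left₀ zero_le h1 4).trans ?_
  have h2 := ENNReal.rpow_sum_le_const_mul_sum_rpow (Finset.range 8)
    (fun j => ‖Pc g (mj j) l α‖ₑ) (p := ((4 : ℕ) : ℝ)) (by norm_num)
  simp only [ENNReal.rpow_natCast, Finset.card_range] at h2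
  refine h2.trans (le_of_eq ?_)
  congr 1
  rw [show ((4 : ℕ) : ℝ) - 1 = ((3 : ℕ) : ℝ) by norm_num, ENNReal.rpow_natCast]
  norm_num

theorem H_bdd (g : ℝ → ℂ) (l α : ℝ) :
    ‖H g l α‖ₑ ≤ ∫⁻ θ in Ioo (-π) π, ‖g θ‖ₑ := by
  unfold H
  refine (enorm_integral_le_lintegral_enorm _).trans (lintegral_mono fun θ => ?_)
  simp only
  rw [enorm_mul]
  have : ‖cexp (I * ((l * (1 + Real.cos (2 * (θ - α))) : ℝ) : ℂ))‖ₑ = 1 := by
    rw [← ofReal_norm, mul_comm, Complex.norm_exp_ofReal_mul_I, ENNReal.ofReal_one]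
  rw [this, one_mul]

theorem cs_lint (f : ℝ → ℝ≥0∞) (hf : Measurable f) :
    (∫⁻ θ in Ioo (-π) π, f θ) ^ 2 ≤ ENNReal.ofReal (2 * π) * ∫⁻ θ in Ioo (-π) π, f θ ^ 2 := by
  have h := ENNReal.lintegral_mul_le_Lp_mul_Lq (volume.restrict (Ioo (-π) π))
    (Real.HolderConjugate.two_two) hf.aemeasurable
    (measurable_const (a := (1 : ℝ≥0∞))).aemeasurable
  simp only [Pi.mul_apply, mul_one, ENNReal.one_rpow, lintegral_const, Measure.restrict_apply,
    MeasurableSet.univ, univ_inter, Real.volume_Ioo, one_mul] at h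
  have h2 := pow_le_pow_left₀ zero_le h 2
  refine h2.trans (le_of_eq ?_)
  have e1 : ∀ x : ℝ≥0∞, (x ^ (1 / 2 : ℝ)) ^ 2 = x := by
    intro x
    rw [← ENNReal.rpow_natCast, ← ENNReal.rpow_mul]
    norm_num
  have e2 : π - -π = 2 * π := by ring
  have e3 : ∀ x : ℝ≥0∞, x ^ (2 : ℝ) = x ^ 2 := fun x => by
    rw [← ENNReal.rpow_natCast]
    norm_num
  rw [mul_pow, e1, e1, e2, mul_comm]
  simp only [e3]

theorem near (g : ℝ → ℂ) (hg : Measurable g) (B : ℝ≥0) (hB : ∀ θ, ‖g θ‖ₑ ≤ B) (δ : ℝ)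
    (hδ1 : δ ≤ 1) :
    ∫⁻ p in (univ : Set ℝ) ×ˢ Ioo (-π) π, ENNReal.ofReal (|p.1| ^ (1 - δ)) *
      ({p : ℝ × ℝ | |p.1| < 1}.indicator (fun p => ‖H g p.1 p.2‖ₑ ^ 4) p) ≤
      ENNReal.ofReal (4 * π * (2 * π) ^ 3) * B ^ 2 * ∫⁻ θ in Ioo (-π) π, ‖g θ‖ₑ ^ 2 := by
  have hpi := Real.pi_pos
  set J := ∫⁻ θ in Ioo (-π) π, ‖g θ‖ₑ ^ 2 with hJ
  have hb : ∀ l α, ‖H g l α‖ₑ ^ 4 ≤ ENNReal.ofReal ((2 * π) ^ 3) * B ^ 2 * J := by
    intro l α
    have h1 := H_bdd g l α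
    have h2 : ∫⁻ θ in Ioo (-π) π, ‖g θ‖ₑ ≤ ENNReal.ofReal (2 * π) * B := by
      calc ∫⁻ θ in Ioo (-π) π, ‖g θ‖ₑ ≤ ∫⁻ θ in Ioo (-π) π, (B : ℝ≥0∞) :=
            lintegral_mono (fun θ => hB θ)
        _ = _ := by
            rw [lintegral_const, Measure.restrict_apply MeasurableSet.univ, univ_inter,
              Real.volume_Ioo, mul_comm]
            congr 2
            ring
    have h3 := cs_lint (fun θ => ‖g θ‖ₑ) hg.enorm
    calc ‖H g l α‖ₑ ^ 4 = ‖H g l α‖ₑ ^ 2 * ‖H g l α‖ₑ ^ 2 := by ring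
      _ ≤ (ENNReal.ofReal (2 * π) * B) ^ 2 * (ENNReal.ofReal (2 * π) * J) :=
          mul_le_mul' (pow_le_pow_left₀ zero_le (h1.trans h2) 2)
            ((pow_le_pow_left₀ zero_le h1 2).trans h3)
      _ = _ := by
          rw [ENNReal.ofReal_pow (by positivity)]
          ring
  calc _ ≤ ∫⁻ p in (univ : Set ℝ) ×ˢ Ioo (-π) π,
        ({p : ℝ × ℝ | |p.1| < 1}.indicator
          (fun _ => ENNReal.ofReal ((2 * π) ^ 3) * B ^ 2 * J) p) := by
        apply lintegral_mono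
        intro p
        simp only
        by_cases hp : |p.1| < 1
        · rw [indicator_of_mem (show p ∈ {p : ℝ × ℝ | |p.1| < 1} from hp),
            indicator_of_mem (show p ∈ {p : ℝ × ℝ | |p.1| < 1} from hp)]
          have h1 : ENNReal.ofReal (|p.1| ^ (1 - δ)) ≤ 1 := by
            rw [← ENNReal.ofReal_one]
            apply ENNReal.ofReal_le_ofReal
            exact Real.rpow_le_one (abs_nonneg _) hp.le (by linarith)
          calc _ ≤ 1 * (ENNReal.ofReal ((2 * π) ^ 3) * B ^ 2 * J) := mul_le_mul' h1 (hb _ _)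
            _ = _ := one_mul _
        · rw [indicator_of_notMem (show p ∉ {p : ℝ × ℝ | |p.1| < 1} from hp), mul_zero]
          exact zero_le
    _ = ENNReal.ofReal (4 * π) * (ENNReal.ofReal ((2 * π) ^ 3) * B ^ 2 * J) := by
        have hm : MeasurableSet {p : ℝ × ℝ | |p.1| < 1} :=
          measurableSet_lt (f := fun p : ℝ × ℝ => |p.1|) (by fun_prop) measurable_const
        rw [lintegral_indicator_const hm, Measure.restrict_apply hm]
        have e : {p : ℝ × ℝ | |p.1| < 1} ∩ (univ : Set ℝ) ×ˢ Ioo (-π) π =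
            Ioo (-1 : ℝ) 1 ×ˢ Ioo (-π) π := by
          ext p
          simp only [mem_inter_iff, mem_prod, mem_univ, true_and, mem_ofPred_eq, abs_lt, mem_Ioo]
        rw [e, Measure.volume_eq_prod, Measure.prod_prod, Real.volume_Ioo, Real.volume_Ioo,
          ← ENNReal.ofReal_mul (by norm_num), mul_comm]
        congr 2
        ring
    _ = _ := by
        rw [ENNReal.ofReal_mul (by positivity : (0 : ℝ) ≤ 4 * π)]
        ring

end Pool.Agent.TH209.VR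

namespace Pool.Agent.TH209.VR

open MeasureTheory Set Complex
open scoped ENNReal NNReal Real
open Pool.Agent.TH407.AR

/-- Job 926. -/
theorem planar : Planar := by
  intro δ hδ hδ1
  obtain ⟨C, h⟩ := arc_far δ hδ
  refine ⟨512 * 8 * C + Real.toNNReal (4 * π * (2 * π) ^ 3), ?_⟩
  intro g B hg hB
  have hpi := Real.pi_pos
  set J := ∫⁻ θ in Ioo (-π) π, ‖g θ‖ₑ ^ 2 with hJ
  have hPm := fun j => Pc_meas g hg (mj j)
  have hm1 : MeasurableSet {p : ℝ × ℝ | 1 ≤ |p.1|} :=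
    measurableSet_le (f := fun _ => (1 : ℝ)) (g := fun p : ℝ × ℝ => |p.1|) measurable_const
      (by fun_prop)
  have hW : Measurable (fun p : ℝ × ℝ => ENNReal.ofReal (|p.1| ^ (1 - δ))) := by fun_prop
  have hfar : ∫⁻ p in (univ : Set ℝ) ×ˢ Ioo (-π) π, ENNReal.ofReal (|p.1| ^ (1 - δ)) *
      ({p : ℝ × ℝ | 1 ≤ |p.1|}.indicator (fun p => ‖H g p.1 p.2‖ₑ ^ 4) p) ≤
      512 * (8 * (C * B ^ 2 * J)) := by
    calc _ ≤ ∫⁻ p in (univ : Set ℝ) ×ˢ Ioo (-π) π, 512 * ∑ j ∈ Finset.range 8,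
          (ENNReal.ofReal (|p.1| ^ (1 - δ)) *
          ({p : ℝ × ℝ | 1 ≤ |p.1|}.indicator (fun p => ‖Pc g (mj j) p.1 p.2‖ₑ ^ 4) p)) := by
          apply lintegral_mono
          intro p
          simp only
          by_cases hp : 1 ≤ |p.1|
          · have hp' : p ∈ {p : ℝ × ℝ | 1 ≤ |p.1|} := hp
            simp only [indicator_of_mem hp']
            rw [← Finset.mul_sum, ← mul_assoc, mul_comm (512 : ℝ≥0∞), mul_assoc]
            gcongr
            exact H_four g hg B hB p.1 p.2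
          · have hp' : p ∉ {p : ℝ × ℝ | 1 ≤ |p.1|} := hp
            simp only [indicator_of_notMem hp', mul_zero]
            exact zero_le
      _ = 512 * ∑ j ∈ Finset.range 8, ∫⁻ p in (univ : Set ℝ) ×ˢ Ioo (-π) π,
          (ENNReal.ofReal (|p.1| ^ (1 - δ)) *
          ({p : ℝ × ℝ | 1 ≤ |p.1|}.indicator (fun p => ‖Pc g (mj j) p.1 p.2‖ₑ ^ 4) p)) := by
          rw [lintegral_const_mul' _ _ (by norm_num), lintegral_finsetSum]
          intro j _
          exact hW.mul ((hPm j).indicator hm1)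
      _ ≤ 512 * ∑ j ∈ Finset.range 8, (C * B ^ 2 * J) := by
          gcongr with j hj
          refine (h g B hg hB (mj j)).trans ?_
          gcongr
          apply lintegral_mono_set
          have hj' : (j : ℝ) ≤ 7 := by
            have := Finset.mem_range.1 hj
            exact_mod_cast (by omega : j ≤ 7)
          have hj0 : (0 : ℝ) ≤ j := Nat.cast_nonneg j
          apply Ioo_subset_Ioo
          · unfold mj; nlinarith
          · unfold mj; nlinarith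
      _ = _ := by
          rw [Finset.sum_const, Finset.card_range]
          simp
  have hnear := near g hg B hB δ hδ1
  have hm2 : Measurable (fun p : ℝ × ℝ => ENNReal.ofReal (|p.1| ^ (1 - δ)) *
      ({p : ℝ × ℝ | 1 ≤ |p.1|}.indicator (fun p => ‖H g p.1 p.2‖ₑ ^ 4) p)) := by
    refine hW.mul (Measurable.indicator ?_ hm1)
    have hH : ∀ p : ℝ × ℝ, H g p.1 p.2 = ∑ j ∈ Finset.range 8, Pc g (mj j) p.1 p.2 :=
      fun p => H_sum g hg B hB p.1 p.2
    simp_rw [hH]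
    have hPP : ∀ j, Measurable (fun p : ℝ × ℝ => Pc g (mj j) p.1 p.2) :=
      fun j => Pc_meas0 g hg (mj j)
    exact (Finset.measurable_fun_sum _ (fun j _ => hPP j)).enorm.pow_const 4
  calc _ = ∫⁻ p in (univ : Set ℝ) ×ˢ Ioo (-π) π, (ENNReal.ofReal (|p.1| ^ (1 - δ)) *
      ({p : ℝ × ℝ | 1 ≤ |p.1|}.indicator (fun p => ‖H g p.1 p.2‖ₑ ^ 4) p) +
      ENNReal.ofReal (|p.1| ^ (1 - δ)) *
      ({p : ℝ × ℝ | |p.1| < 1}.indicator (fun p => ‖H g p.1 p.2‖ₑ ^ 4) p)) := by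
        apply lintegral_congr
        intro p
        rw [← mul_add]
        congr 1
        by_cases hp : 1 ≤ |p.1|
        · have hp1 : p ∈ {p : ℝ × ℝ | 1 ≤ |p.1|} := hp
          have hp2 : p ∉ {p : ℝ × ℝ | |p.1| < 1} := not_lt.2 hp
          rw [indicator_of_mem hp1, indicator_of_notMem hp2, add_zero]
        · have hp1 : p ∉ {p : ℝ × ℝ | 1 ≤ |p.1|} := hp
          have hp2 : p ∈ {p : ℝ × ℝ | |p.1| < 1} := not_le.1 hp
          rw [indicator_of_notMem hp1, indicator_of_mem hp2, zero_add]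
    _ ≤ 512 * (8 * (C * B ^ 2 * J)) + ENNReal.ofReal (4 * π * (2 * π) ^ 3) * B ^ 2 * J := by
        rw [lintegral_add_left hm2]
        exact add_le_add hfar hnear
    _ = _ := by
        rw [ENNReal.coe_add, ENNReal.coe_mul, ENNReal.coe_mul]
        have e : ENNReal.ofReal (4 * π * (2 * π) ^ 3) =
          ((Real.toNNReal (4 * π * (2 * π) ^ 3) : ℝ≥0) : ℝ≥0∞) := rfl
        rw [e]
        push_cast
        ring

end Pool.Agent.TH209.VR
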